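import Pool.Agent.Helper61.NW.Goals2

/-!
# Packet TEN of project NW+ (direct proof: the twisted transfer)
-/

set_option autoImplicit false

namespace Pool.Agent.Helper55.NW

open Pool.Agent.Helper61.NW
open Pool.Agent.Helper52.Wq2

universe u

theorem ten : TenStmt.{u} := by
  intro Γ _ hinf hc
  obtain ⟨c, hcfi⟩ := hc
  -- a normal infinite cyclic subgroup of finite index
  obtain ⟨z, hzn, hzfi⟩ : ∃ z : Γ, (Subgroup.zpowers z).Normal ∧
      (Subgroup.zpowers z).FiniteIndex := by
    have h1 : IsCyclic ((Subgroup.zpowers c).normalCore) :=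
      Subgroup.isCyclic_of_le (Subgroup.normalCore_le (Subgroup.zpowers c))
    obtain ⟨z, hz⟩ := (Subgroup.isCyclic_iff_exists_zpowers_eq_top _).1 h1
    refine ⟨z, ?_, ?_⟩
    · rw [hz]
      infer_instance
    · rw [hz]
      infer_instance
  have hinj : ∀ i j : ℤ, z ^ i = z ^ j → i = j := by
    by_contra hcon
    push Not at hcon
    obtain ⟨i, j, hij, hne⟩ := hcon
    have hfo : IsOfFinOrder z := by
      rw [isOfFinOrder_iff_zpow_eq_one]
      refine ⟨i - j, sub_ne_zero.2 hne, ?_⟩
      rw [zpow_sub, hij, mul_inv_cancel]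
    have hf1 : Finite (Subgroup.zpowers z) := hfo.finite_zpowers
    have hf2 : Finite (Γ ⧸ Subgroup.zpowers z) := Subgroup.finite_quotient_of_finiteIndex
    have hf3 : Finite Γ := by
      exact Finite.of_equiv _ (Subgroup.groupEquivQuotientProdSubgroup (s := Subgroup.zpowers z)).symm
    exact not_finite_iff_infinite.2 hinf hf3
  have hconj : ∀ g : Γ, ∃ a : ℤ, g * z * g⁻¹ = z ^ a := by
    intro g
    have h1 := hzn.conj_mem z (Subgroup.mem_zpowers z) g
    obtain ⟨a, ha⟩ := Subgroup.mem_zpowers_iff.1 h1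
    exact ⟨a, ha.symm⟩
  have hunit : ∀ g : Γ, ∃ e : ℤˣ, g * z * g⁻¹ = z ^ (e : ℤ) := by
    intro g
    obtain ⟨a, ha⟩ := hconj g
    obtain ⟨b, hb⟩ := hconj g⁻¹
    have h1 : z ^ (a * b) = z ^ (1 : ℤ) := by
      rw [zpow_mul, ← ha, conj_zpow, ← hb, zpow_one]
      group
    have h2 : a * b = 1 := hinj _ _ h1
    exact ⟨⟨a, b, h2, by rw [mul_comm]; exact h2⟩, ha⟩
  choose ε₀ hε₀ using hunit
  have hεz : ∀ (g : Γ) (k : ℤ), g * z ^ k * g⁻¹ = z ^ ((ε₀ g : ℤ) * k) := by
    intro g k
    rw [← conj_zpow, hε₀, zpow_mul]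
  let ε : Γ →* ℤˣ := MonoidHom.mk' ε₀ (by
    intro a b
    apply Units.ext
    apply hinj
    rw [← hε₀, Units.val_mul, ← hεz a, ← hε₀]
    group)
  have hε : ∀ (g : Γ) (k : ℤ), g * z ^ k = z ^ ((ε g : ℤ) * k) * g := by
    intro g k
    have h1 : z ^ ((ε g : ℤ) * k) = g * z ^ k * g⁻¹ := (hεz g k).symm
    rw [h1, inv_mul_cancel_right]
  have hεz1 : ε z = 1 := by
    apply Units.ext
    apply hinj
    have := hε₀ z
    rw [show (ε z : ℤ) = ε₀ z from rfl, ← this]
    simp
  have hf : Finite (Γ ⧸ Subgroup.zpowers z) := Subgroup.finite_quotient_of_finiteIndex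
  have : Fintype (Γ ⧸ Subgroup.zpowers z) := Fintype.ofFinite _
  have hex : ∀ (g : Γ) (x : Γ ⧸ Subgroup.zpowers z), ∃ b : ℤ,
      g * x.out = z ^ b * (g • x).out := by
    intro g x
    have h1 : ((g * x.out : Γ) : Γ ⧸ Subgroup.zpowers z) = g • x := by
      rw [← MulAction.Quotient.coe_smul_out]
      rfl
    obtain ⟨y, hy⟩ := QuotientGroup.mk_out_eq_mul (Subgroup.zpowers z) (g * x.out)
    rw [h1] at hy
    obtain ⟨k, hk⟩ := Subgroup.mem_zpowers_iff.1 y.2
    have h2 : g * x.out = (g • x).out * z ^ (-k) := by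
      rw [hy, ← hk, mul_assoc, ← zpow_add]
      simp
    rw [h2, hε]
    exact ⟨_, rfl⟩
  choose b hb using hex
  have hbc : ∀ g g' x, b (g * g') x = b g (g' • x) + (ε g : ℤ) * b g' x := by
    intro g g' x
    apply hinj
    have h1 := hb (g * g') x
    have h2 : g * g' * x.out = z ^ ((ε g : ℤ) * b g' x) * (z ^ (b g (g' • x)) *
        ((g * g') • x).out) := by
      rw [mul_assoc, hb g' x, ← mul_assoc, hε, mul_assoc, hb g (g' • x), smul_smul]
    rw [h2, ← mul_assoc] at h1
    have h3 := mul_right_cancel h1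
    rw [← h3, ← zpow_add, add_comm]
  let h : Γ → ℤ := fun g => ∑ x, b g x
  have hcoc : ∀ a a', h (a * a') = h a + (ε a : ℤ) * h a' := by
    intro a a'
    show ∑ x, b (a * a') x = ∑ x, b a x + (ε a : ℤ) * ∑ x, b a' x
    simp only [hbc]
    rw [Finset.sum_add_distrib, Finset.mul_sum]
    congr 1
    exact Equiv.sum_comp (MulAction.toPerm a') (fun x => b a x)
  have hbz : ∀ x, b z x = 1 := by
    intro x
    apply hinj
    have h1 := hb z x
    have h2 : z • x = x := by
      have h3 : ((z * x.out : Γ) : Γ ⧸ Subgroup.zpowers z) = z • x := by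
        rw [← MulAction.Quotient.coe_smul_out]
        rfl
      have h4 : ((x.out : Γ) : Γ ⧸ Subgroup.zpowers z) = x := Quotient.out_eq' x
      rw [← h3]
      nth_rewrite 2 [← h4]
      rw [eq_comm, QuotientGroup.eq]
      have h5 := hzn.conj_mem z (Subgroup.mem_zpowers z) (x.out)⁻¹
      rw [inv_inv] at h5
      rw [← mul_assoc]
      exact h5
    rw [h2] at h1
    rw [zpow_one]
    exact (mul_right_cancel h1).symm
  have hz : h z = Fintype.card (Γ ⧸ Subgroup.zpowers z) := by
    show ∑ x, b z x = _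
    simp [hbz]
  have hcard : (Fintype.card (Γ ⧸ Subgroup.zpowers z) : ℤ) ≠ 0 := by
    have : 0 < Fintype.card (Γ ⧸ Subgroup.zpowers z) := Fintype.card_pos
    omega
  have h1 : h 1 = 0 := by
    have := hcoc 1 1
    rw [map_one, mul_one, Units.val_one, one_mul] at this
    omega
  have hzk : ∀ k : ℤ, h (z ^ k) = k * h z := by
    intro k
    induction k using Int.induction_on with
    | zero => simp [h1]
    | succ i ih =>
      rw [zpow_add_one, hcoc, ih, map_zpow, hεz1, one_zpow, Units.val_one]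
      ring
    | pred i ih =>
      have h2 : h (z ^ (-(i : ℤ) - 1) * z) = h (z ^ (-(i : ℤ) - 1)) + h z := by
        rw [hcoc, map_zpow, hεz1, one_zpow, Units.val_one, one_mul]
      rw [← zpow_add_one, sub_add_cancel, ih] at h2
      linarith
  have hker : {g | ε g = 1 ∧ h g = 0}.Finite := by
    refine Set.Finite.of_finite_image (f := fun g : Γ => (g : Γ ⧸ Subgroup.zpowers z))
      (Set.toFinite _) ?_
    intro g hg g' hg' hgg
    have h2 := QuotientGroup.eq.1 hgg
    obtain ⟨k, hk⟩ := Subgroup.mem_zpowers_iff.1 h2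
    have h3 : g' = g * z ^ k := by
      rw [hk]
      group
    have h4 := hg'.2
    rw [h3, hcoc, hg.2, hg.1, Units.val_one, one_mul, zero_add, hzk, hz] at h4
    have h5 : k = 0 := by
      rcases mul_eq_zero.1 h4 with h5 | h5
      · exact h5
      · exact absurd h5 hcard
    rw [h3, h5, zpow_zero, mul_one]
  by_cases hneg : ∃ u, ε u = -1
  · right
    exact ⟨ε, h, hneg, hcoc, hker, z, hεz1, by rw [hz]; exact hcard⟩
  · left
    have hall : ∀ g, ε g = 1 := by
      intro g
      rcases Int.units_eq_one_or (ε g) with h2 | h2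
      · exact h2
      · exact absurd ⟨g, h2⟩ hneg
    have hadd : ∀ a a', h (a * a') = h a + h a' := by
      intro a a'
      rw [hcoc, hall, Units.val_one, one_mul]
    let f : Γ →* Multiplicative ℤ := MonoidHom.mk' (fun g => Multiplicative.ofAdd (h g)) (by
      intro a a'
      rw [hadd]
      rfl)
    -- the image is generated by a nonzero integer
    let h' : Additive Γ →+ ℤ := AddMonoidHom.mk' (fun g => h (Additive.toMul g)) (by
      intro a a'
      exact hadd _ _)
    obtain ⟨m, hm⟩ := Int.subgroup_cyclic h'.range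
    have hm1 : ∀ g : Γ, ∃ q : ℤ, h g = q * m := by
      intro g
      have h2 : h g ∈ h'.range := ⟨Additive.ofMul g, rfl⟩
      rw [hm, AddSubgroup.mem_closure_singleton] at h2
      obtain ⟨q, hq⟩ := h2
      exact ⟨q, by rw [← hq, smul_eq_mul]⟩
    have hm0 : m ≠ 0 := by
      rintro rfl
      obtain ⟨q, hq⟩ := hm1 z
      rw [mul_zero, hz] at hq
      exact hcard hq
    choose q hq using hm1
    have hqadd : ∀ a a', q (a * a') = q a + q a' := by
      intro a a'
      apply mul_right_cancel₀ hm0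
      rw [← hq, add_mul, ← hq, ← hq, hadd]
    have hmm : m ∈ h'.range := by
      rw [hm]
      exact AddSubgroup.mem_closure_singleton_self m
    obtain ⟨g₁, hg₁⟩ := hmm
    have hq1 : q (Additive.toMul g₁) = 1 := by
      apply mul_right_cancel₀ hm0
      rw [← hq, one_mul]
      exact hg₁
    let F : Γ →* Multiplicative ℤ := MonoidHom.mk' (fun g => Multiplicative.ofAdd (q g)) (by
      intro a a'
      rw [hqadd]
      rfl)
    refine ⟨F, ?_, ?_⟩
    · intro y
      refine ⟨Additive.toMul g₁ ^ (Multiplicative.toAdd y), ?_⟩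
      rw [map_zpow]
      have h2 : F (Additive.toMul g₁) = Multiplicative.ofAdd 1 := by
        show Multiplicative.ofAdd (q (Additive.toMul g₁)) = _
        rw [hq1]
      rw [h2, ← ofAdd_zsmul, smul_eq_mul, mul_one]
      rfl
    · refine hker.subset ?_
      intro g hg
      refine ⟨hall g, ?_⟩
      have h2 : q g = 0 := hg
      rw [hq, h2, zero_mul]

end Pool.Agent.Helper55.NW
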