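import Pool.Agent.Helper61.NW.Goals

/-!
# Packet SCH of project NW
-/

set_option autoImplicit false

namespace Pool.Agent.Helper55.NW

open Pool.Agent.Helper61.NW
open Pool.Agent.Helper52.Wq2
open scoped commutatorElement

universe u

/-- Commutators depend only on the cosets of the centre. -/
theorem finite_comm {Γ : Type u} [Group Γ] (hc : (Subgroup.center Γ).FiniteIndex) :
    Finite (commutatorSet Γ) := by
  have hfin : Finite (Γ ⧸ Subgroup.center Γ) := Subgroup.finite_quotient_of_finiteIndex
  let f : (Γ ⧸ Subgroup.center Γ) × (Γ ⧸ Subgroup.center Γ) → Γ := fun p => ⁅p.1.out, p.2.out⁆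
  have hsub : commutatorSet Γ ⊆ Set.range f := by
    rintro g ⟨a, b, rfl⟩
    refine ⟨((a : Γ ⧸ Subgroup.center Γ), (b : Γ ⧸ Subgroup.center Γ)), ?_⟩
    obtain ⟨x, hx⟩ := QuotientGroup.mk_out_eq_mul (Subgroup.center Γ) a
    obtain ⟨y, hy⟩ := QuotientGroup.mk_out_eq_mul (Subgroup.center Γ) b
    have hxc := Subgroup.mem_center_iff.1 x.2
    have hyc := Subgroup.mem_center_iff.1 y.2
    show ⁅((a : Γ ⧸ Subgroup.center Γ)).out, ((b : Γ ⧸ Subgroup.center Γ)).out⁆ = ⁅a, b⁆
    rw [hx, hy]
    have h1 : a * (x : Γ) * (b * (y : Γ)) = a * b * ((x : Γ) * (y : Γ)) := by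
      rw [mul_assoc, ← mul_assoc (x : Γ), ← hxc b, mul_assoc b, ← mul_assoc a]
    have h2 : b * (y : Γ) * (a * (x : Γ)) = b * a * ((x : Γ) * (y : Γ)) := by
      rw [mul_assoc, ← mul_assoc (y : Γ), ← hyc a, mul_assoc a, ← mul_assoc b, hxc (y : Γ)]
    have h3 : ∀ p q : Γ, ⁅p, q⁆ = p * q * (q * p)⁻¹ := by
      intro p q
      rw [commutatorElement_def, mul_inv_rev]
      simp only [mul_assoc]
    rw [h3, h3, h1, h2]
    group
  exact (Set.finite_range f).subset hsub

/-- A homomorphism to a free abelian group of finite rank which is onto and has a finite kernel. -/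
theorem exists_hom {Γ : Type u} [Group Γ] (hfg : Group.FG Γ)
    (hc : (Subgroup.center Γ).FiniteIndex) :
    ∃ (r : ℕ) (h : Γ →* Multiplicative (Fin r → ℤ)), Function.Surjective h ∧
      (h.ker : Set Γ).Finite := by
  have := finite_comm hc
  have hcf : Finite (_root_.commutator Γ) := inferInstance
  let A := Additive (Abelianization Γ)
  have hfgA : Module.Finite ℤ A := by
    have h1 : Group.FG (Abelianization Γ) := by
      have := QuotientGroup.fg (commutator Γ)
      exact this
    have h2 : AddGroup.FG A := by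
      exact AddGroup.fg_iff_mul_fg.2 h1
    exact Module.Finite.iff_addGroup_fg.2 h2
  let T := Submodule.torsion ℤ A
  let M := A ⧸ T
  have hM : Module.Finite ℤ M := inferInstance
  have hTf : Module.Free ℤ M := inferInstance
  let b := Module.finBasis ℤ M
  let r := Module.finrank ℤ M
  let e : M ≃+ (Fin r → ℤ) := b.equivFun.toAddEquiv
  let φ : A →+ (Fin r → ℤ) := e.toAddMonoidHom.comp T.mkQ.toAddMonoidHom
  let h : Γ →* Multiplicative (Fin r → ℤ) :=
    (AddMonoidHom.toMultiplicativeRight φ).comp (Abelianization.of)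
  have hh : ∀ g, h g = Multiplicative.ofAdd (e (T.mkQ (Additive.ofMul (Abelianization.of g)))) :=
    fun g => rfl
  refine ⟨r, h, ?_, ?_⟩
  · intro y
    obtain ⟨m, hm⟩ := e.surjective (Multiplicative.toAdd y)
    obtain ⟨a, ha⟩ := T.mkQ_surjective m
    obtain ⟨g, hg⟩ := QuotientGroup.mk_surjective (Additive.toMul a)
    refine ⟨g, ?_⟩
    rw [hh]
    have h1 : Additive.ofMul (Abelianization.of g) = a := by
      have : Abelianization.of g = Additive.toMul a := hg
      rw [this]
      rfl
    rw [h1, ha, hm]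
    rfl
  · -- the torsion is finite
    have hTfin : Finite T := by
      have h1 : Module.Finite ℤ T := inferInstance
      have h2 : Module.IsTorsion ℤ T := Submodule.torsion_isTorsion
      exact Module.finite_of_fg_torsion T h2
    have hsub : (h.ker : Set Γ) ⊆ ⋃ t ∈ (Set.univ : Set T),
        {g : Γ | Additive.ofMul (Abelianization.of g) = (t : A)} := by
      intro g hg
      have h1 : h g = 1 := hg
      rw [hh] at h1
      have h2 : e (T.mkQ (Additive.ofMul (Abelianization.of g))) = 0 := h1
      have h3 : T.mkQ (Additive.ofMul (Abelianization.of g)) = 0 :=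
        (map_eq_zero_iff e e.injective).1 h2
      have h4 : Additive.ofMul (Abelianization.of g) ∈ T :=
        (Submodule.Quotient.mk_eq_zero T).1 h3
      exact Set.mem_biUnion (Set.mem_univ (⟨_, h4⟩ : T)) rfl
    refine Set.Finite.subset ?_ hsub
    refine Set.Finite.biUnion Set.finite_univ fun t _ => ?_
    by_cases hne : ∃ g₀ : Γ, Additive.ofMul (Abelianization.of g₀) = (t : A)
    · obtain ⟨g₀, hg₀⟩ := hne
      have h5 : {g : Γ | Additive.ofMul (Abelianization.of g) = (t : A)} ⊆
          (fun x : Γ => g₀ * x) '' ((_root_.commutator Γ : Subgroup Γ) : Set Γ) := by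
        intro g hg
        have h6 : Abelianization.of g = Abelianization.of g₀ := by
          have h7 : Additive.ofMul (Abelianization.of g) = Additive.ofMul (Abelianization.of g₀) := by
            rw [hg₀]
            exact hg
          exact h7
        have h8 : g₀⁻¹ * g ∈ _root_.commutator Γ := by
          have h9 : (QuotientGroup.mk g₀ : Γ ⧸ _root_.commutator Γ) = QuotientGroup.mk g := h6.symm
          exact QuotientGroup.eq.1 h9
        exact ⟨g₀⁻¹ * g, h8, by simp⟩
      exact ((Set.toFinite _).image _).subset h5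
    · have h5 : {g : Γ | Additive.ofMul (Abelianization.of g) = (t : A)} = ∅ := by
        ext g
        exact ⟨fun hg => absurd ⟨g, hg⟩ hne, fun hg => absurd hg (Set.notMem_empty g)⟩
      rw [h5]
      exact Set.finite_empty

theorem sch : SchStmt.{u} := by
  intro Γ _ hfg hinf hc
  obtain ⟨r, h, hsurj, hker⟩ := exists_hom hfg hc
  have hker' : ∀ {P : Type} [AddCommGroup P] (e : (Fin r → ℤ) ≃+ P),
      ∃ h' : Γ →* Multiplicative P, Function.Surjective h' ∧ (h'.ker : Set Γ).Finite := by
    intro P _ e
    refine ⟨(AddEquiv.toMultiplicative e).toMonoidHom.comp h, ?_, ?_⟩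
    · exact (AddEquiv.toMultiplicative e).surjective.comp hsurj
    · refine hker.subset ?_
      intro g hg
      have h1 : (AddEquiv.toMultiplicative e) (h g) = 1 := hg
      exact (map_eq_one_iff _ (AddEquiv.toMultiplicative e).injective).1 h1
  rcases Nat.lt_or_ge r 3 with hr | hr
  · right
    have hcases : r = 0 ∨ r = 1 ∨ r = 2 := by omega
    rcases hcases with rfl | rfl | rfl
    · exfalso
      have h1 : (h.ker : Set Γ) = Set.univ := by
        ext g
        refine ⟨fun _ => trivial, fun _ => ?_⟩
        show h g = 1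
        exact Subsingleton.elim _ _
      rw [h1] at hker
      exact (Set.infinite_univ_iff.2 hinf) hker
    · left
      let e : (Fin 1 → ℤ) ≃+ ℤ :=
        { toFun := fun f => f 0
          invFun := fun x _ => x
          left_inv := fun f => by
            funext i
            rw [Subsingleton.elim i 0]
          right_inv := fun _ => rfl
          map_add' := fun _ _ => rfl }
      exact hker' e
    · right
      let e : (Fin 2 → ℤ) ≃+ (ℤ × ℤ) :=
        { toFun := fun f => (f 0, f 1)
          invFun := fun x => ![x.1, x.2]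
          left_inv := fun f => by
            funext i
            fin_cases i <;> rfl
          right_inv := fun _ => rfl
          map_add' := fun _ _ => rfl }
      exact hker' e
  · left
    -- coordinates
    let φ : Fin r → Γ →* Multiplicative ℤ := fun i =>
      (AddMonoidHom.toMultiplicative (Pi.evalAddMonoidHom (fun _ : Fin r => ℤ) i)).comp h
    let φ' : Fin r → Γ → ℤ := fun i g => Multiplicative.toAdd (φ i g)
    have hφmul : ∀ i a b, φ' i (a * b) = φ' i a + φ' i b := by
      intro i a b
      show Multiplicative.toAdd (φ i (a * b)) = _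
      rw [map_mul]
      rfl
    have hφpow : ∀ i a (n : ℕ), φ' i (a ^ n) = n * φ' i a := by
      intro i a n
      show Multiplicative.toAdd (φ i (a ^ n)) = _
      rw [map_pow, toAdd_pow, nsmul_eq_mul]
    have hφzpow : ∀ i a (n : ℤ), φ' i (a ^ n) = n * φ' i a := by
      intro i a n
      show Multiplicative.toAdd (φ i (a ^ n)) = _
      rw [map_zpow, toAdd_zpow, smul_eq_mul]
    have hφ1 : ∀ i, φ' i 1 = 0 := by
      intro i
      show Multiplicative.toAdd (φ i 1) = 0
      rw [map_one]
      rfl
    have hlift : ∀ f : Fin r → ℤ, ∃ g : Γ, ∀ i, φ' i g = f i := by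
      intro f
      obtain ⟨g, hg⟩ := hsurj (Multiplicative.ofAdd f)
      refine ⟨g, fun i => ?_⟩
      show (Multiplicative.toAdd (h g)) i = f i
      rw [hg]
      rfl
    have i0 : (0 : ℕ) < r := by omega
    have i1 : (1 : ℕ) < r := by omega
    have i2 : (2 : ℕ) < r := by omega
    obtain ⟨g0, hg0⟩ := hlift (Pi.single ⟨0, i0⟩ 1)
    obtain ⟨g1, hg1⟩ := hlift (Pi.single ⟨1, i1⟩ 1)
    obtain ⟨g2, hg2⟩ := hlift (Pi.single ⟨2, i2⟩ 1)
    have hd : (Subgroup.center Γ).index ≠ 0 := hc.index_ne_zero
    set d := (Subgroup.center Γ).index with hddef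
    have hdz : (d : ℤ) ≠ 0 := by exact_mod_cast hd
    have hpow : ∀ g : Γ, g ^ d ∈ Subgroup.center Γ := fun g => by
      rw [hddef]
      exact Subgroup.pow_index_mem _ g
    have hv : ∀ (i j : Fin r), (Pi.single i (1 : ℤ) : Fin r → ℤ) j = if j = i then 1 else 0 := by
      intro i j
      rw [Pi.single_apply]
    refine ⟨g0 ^ d, g1 ^ d, ?_, ?_, ?_⟩
    · exact Subgroup.mem_center_iff.1 (hpow g0)
    · intro i j hij
      have h0 := congrArg (φ' ⟨0, i0⟩) hij
      have h1 := congrArg (φ' ⟨1, i1⟩) hij
      rw [hφmul, hφzpow, hφzpow, hφpow, hφpow, hg0, hg1, hφ1, hv, hv] at h0 h1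
      simp only [Fin.mk.injEq, if_true, if_false, zero_ne_one, one_ne_zero, mul_zero, mul_one,
        zero_add, add_zero, mul_eq_zero, hdz, or_false] at h0 h1
      exact ⟨h1, h0⟩
    · intro hfi
      have hle : Subgroup.closure {g0 ^ d, g1 ^ d} ≤ (φ ⟨2, i2⟩).ker := by
        rw [Subgroup.closure_le]
        intro g hg
        have h1 : φ' ⟨2, i2⟩ g = 0 := by
          rcases hg with rfl | hg
          · rw [hφpow, hg0, hv]
            simp
          · rw [Set.mem_singleton_iff] at hg
            rw [hg, hφpow, hg1, hv]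
            simp
        exact h1
      have hfk : (φ ⟨2, i2⟩).ker.FiniteIndex := Subgroup.finiteIndex_of_le hle
      have h1 : (φ ⟨2, i2⟩).ker.index ≠ 0 := hfk.index_ne_zero
      have h2 : g2 ^ (φ ⟨2, i2⟩).ker.index ∈ (φ ⟨2, i2⟩).ker := Subgroup.pow_index_mem _ g2
      have h3 : φ' ⟨2, i2⟩ (g2 ^ (φ ⟨2, i2⟩).ker.index) = 0 := h2
      rw [hφpow, hg2, hv] at h3
      simp only [if_true, mul_one, Nat.cast_eq_zero] at h3
      exact h1 h3

end Pool.Agent.Helper55.NW
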